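import Pool.Agent.Helper93.OR.Defs
import Pool.Agent.Helper28.TL.Conv
import Pool.Agent.Helper56.UG.Cv

/-!
# OR, block SH1: from the smoothed to the sharp counts
-/

set_option autoImplicit false
open MeasureTheory Set Filter Topology
open Pool.Agent.Helper57.Zeta Pool.Agent.Helper57.LH Pool.Agent.Helper57.ED
open Pool.Agent.Helper93.UG (zc sp)
open Pool.Agent.Helper56.UG (zc_mono zc_union)
open Pool.Agent.Helper57.NS (cnt)
open Pool.Agent.Helper93.OR

namespace Pool.Agent.Helper44.OR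

lemma pre_Icc {T : ℝ} (hs : 0 < sp T) (t a b : ℝ) :
    {u : ℝ | (u - t) / sp T ∈ Icc a b} = Icc (t + a * sp T) (t + b * sp T) := by
  ext u
  simp only [Set.mem_ofPred_eq, Set.mem_Icc]
  rw [le_div_iff₀ hs, div_le_iff₀ hs]
  constructor
  · rintro ⟨h1, h2⟩
    constructor <;> linarith
  · rintro ⟨h1, h2⟩
    constructor <;> linarith

lemma cnt_mono {T : ℝ} (hs : 0 < sp T) (t : ℝ) {U V : Set ℝ} {a b : ℝ} (hUV : U ⊆ V) (hV : V ⊆ Icc a b) :
    cnt T t U ≤ cnt T t V := by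
  unfold cnt
  have h1 : {u : ℝ | (u - t) / sp T ∈ V} ⊆ Icc (t + a * sp T) (t + b * sp T) := by
    rw [← pre_Icc hs]
    exact fun u hu => hV hu
  have h2 : zc {u : ℝ | (u - t) / sp T ∈ U} ≤ zc {u : ℝ | (u - t) / sp T ∈ V} := zc_mono (fun u hu => hUV hu) h1
  exact_mod_cast h2

lemma cnt_union {T : ℝ} (hs : 0 < sp T) (t : ℝ) {U V : Set ℝ} {a b : ℝ} (hU : U ⊆ Icc a b) (hV : V ⊆ Icc a b)
    (hd : Disjoint U V) : cnt T t (U ∪ V) = cnt T t U + cnt T t V := by
  unfold cnt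
  have h1 : {u : ℝ | (u - t) / sp T ∈ U} ⊆ Icc (t + a * sp T) (t + b * sp T) := by
    rw [← pre_Icc hs]
    exact fun u hu => hU hu
  have h2 : {u : ℝ | (u - t) / sp T ∈ V} ⊆ Icc (t + a * sp T) (t + b * sp T) := by
    rw [← pre_Icc hs]
    exact fun u hu => hV hu
  have h3 : {u : ℝ | (u - t) / sp T ∈ U ∪ V} = {u : ℝ | (u - t) / sp T ∈ U} ∪ {u : ℝ | (u - t) / sp T ∈ V} := by
    ext u; simp only [Set.mem_ofPred_eq, Set.mem_union]
  have h4 : Disjoint {u : ℝ | (u - t) / sp T ∈ U} {u : ℝ | (u - t) / sp T ∈ V} := by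
    rw [Set.disjoint_left]
    exact fun u hu hv => Set.disjoint_left.1 hd hu hv
  rw [h3, zc_union h1 h2 h4]
  push_cast
  ring

lemma cnt_shift {T : ℝ} (hs : 0 < sp T) (t v a b : ℝ) :
    cnt T (t + v) (Icc a b) = cnt T t (Icc (a + v / sp T) (b + v / sp T)) := by
  unfold cnt
  rw [pre_Icc hs, pre_Icc hs]
  congr 3
  · field_simp; ring
  · field_simp; ring

/-- upper and lower bound for the count in a window with one end near `0` -/
lemma cnt_window {T t Y δ a b : ℝ} (hs : 0 < sp T)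
    (h : ∀ y ∈ Icc 0 Y, |cnt T t (Icc 0 y) - y| ≤ δ ∧ |cnt T t (Icc (-y) 0) - y| ≤ δ) (hY : 0 ≤ Y)
    (ha : |a| ≤ Y) (hb : 0 ≤ b) (hab : a ≤ b) :
    cnt T t (Icc a b) - (b - a) ≤ (cnt T t (Icc 0 b) - b) + δ ∧
      (cnt T t (Icc 0 b) - b) - 2 * δ ≤ cnt T t (Icc a b) - (b - a) := by
  obtain ⟨ha1, ha2⟩ := abs_le.1 ha
  have hδ : 0 ≤ δ := (abs_nonneg _).trans (h 0 ⟨le_rfl, hY⟩).1
  rcases le_or_gt 0 a with h0 | h0
  · -- `a ≥ 0`
    have e1 : Icc 0 b = Ico 0 a ∪ Icc a b := by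
      ext u; simp only [mem_Icc, mem_union, mem_Ico]
      constructor
      · rintro ⟨h1, h2⟩
        rcases lt_or_ge u a with h3 | h3
        · exact Or.inl ⟨h1, h3⟩
        · exact Or.inr ⟨h3, h2⟩
      · rintro (⟨h1, h2⟩ | ⟨h1, h2⟩)
        · exact ⟨h1, by linarith⟩
        · exact ⟨by linarith, h2⟩
    have e2 : cnt T t (Icc 0 b) = cnt T t (Ico 0 a) + cnt T t (Icc a b) := by
      rw [e1]
      refine cnt_union hs t (a := 0) (b := b) (fun u hu => ⟨hu.1, by linarith [hu.2]⟩) (fun u hu => ⟨by linarith [hu.1], hu.2⟩) ?_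
      rw [Set.disjoint_left]
      exact fun u h1 h2 => absurd h2.1 (not_le.2 h1.2)
    have e3 : cnt T t (Ico 0 a) ≤ cnt T t (Icc 0 a) := cnt_mono hs t Ico_subset_Icc_self subset_rfl
    have e4 : a - δ ≤ cnt T t (Ico 0 a) := by
      apply le_of_forall_pos_le_add
      intro ε hε
      rcases le_or_gt a 0 with h5 | h5
      · have h6 : 0 ≤ cnt T t (Ico 0 a) := Helper28.TL.H82.cnt_nonneg _ _ _
        linarith
      · set a' := max 0 (a - ε) with ha'
        have h6 : 0 ≤ a' := le_max_left _ _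
        have h7 : a' < a := max_lt h5 (by linarith)
        have h8 : a - ε ≤ a' := le_max_right _ _
        have h9 := (abs_le.1 (h a' ⟨h6, by linarith⟩).1).1
        have h10 : cnt T t (Icc 0 a') ≤ cnt T t (Ico 0 a) :=
          cnt_mono hs t (fun u hu => ⟨hu.1, by linarith [hu.2]⟩) (Ico_subset_Icc_self : Ico (0 : ℝ) a ⊆ Icc 0 a)
        linarith
    have h11 := (abs_le.1 (h a ⟨h0, ha2⟩).1).2
    constructor <;> linarith
  · -- `a < 0`
    have h1 := abs_le.1 (h (-a) ⟨by linarith, by linarith⟩).2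
    rw [neg_neg] at h1
    have h2 := abs_le.1 (h 0 ⟨le_rfl, hY⟩).1
    have e1 : Icc a b = Ico a 0 ∪ Icc 0 b := by
      ext u; simp only [mem_Icc, mem_union, mem_Ico]
      constructor
      · rintro ⟨h1, h2⟩
        rcases lt_or_ge u 0 with h3 | h3
        · exact Or.inl ⟨h1, h3⟩
        · exact Or.inr ⟨h3, h2⟩
      · rintro (⟨h1, h2⟩ | ⟨h1, h2⟩)
        · exact ⟨h1, by linarith⟩
        · exact ⟨by linarith, h2⟩
    have e2 : cnt T t (Icc a b) = cnt T t (Ico a 0) + cnt T t (Icc 0 b) := by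
      rw [e1]
      refine cnt_union hs t (a := a) (b := b) (fun u hu => ⟨hu.1, by linarith [hu.2]⟩) (fun u hu => ⟨by linarith [hu.1], hu.2⟩) ?_
      rw [Set.disjoint_left]
      exact fun u h1 h2 => absurd h2.1 (not_le.2 h1.2)
    have e3 : Icc a 0 = Ico a 0 ∪ Icc 0 0 := by
      ext u; simp only [mem_Icc, mem_union, mem_Ico]
      constructor
      · rintro ⟨h1, h2⟩
        rcases lt_or_ge u 0 with h3 | h3
        · exact Or.inl ⟨h1, h3⟩
        · exact Or.inr ⟨h3, h2⟩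
      · rintro (⟨h1, h2⟩ | ⟨h1, h2⟩)
        · exact ⟨h1, by linarith⟩
        · exact ⟨by linarith, h2⟩
    have e4 : cnt T t (Icc a 0) = cnt T t (Ico a 0) + cnt T t (Icc 0 0) := by
      rw [e3]
      refine cnt_union hs t (a := a) (b := 0) (fun u hu => ⟨hu.1, by linarith [hu.2]⟩) (fun u hu => ⟨by linarith [hu.1], hu.2⟩) ?_
      rw [Set.disjoint_left]
      exact fun u h1 h2 => absurd h2.1 (not_le.2 h1.2)
    have h5 : 0 ≤ cnt T t (Icc 0 0) := Helper28.TL.H82.cnt_nonneg _ _ _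
    constructor <;> linarith [h1.1, h1.2, h2.1, h2.2]

/-- SH1, with the three properties of a good `t` as hypotheses -/
theorem sh_point_raw {n : ℕ} (hn : 4 ≤ n) {T L e e₁ t σ V x : ℝ} (hT : 3 ≤ T) (hL : 1 ≤ L) (he : 0 < e)
    (hsm : ∀ x : ℝ, |x| ≤ L → |Nn n T L t x - x - (Yn n T L t x - Yn n T L t 0)| ≤ 1)
    (htl : ∀ x ∈ Icc 0 L, ∫ v in {v : ℝ | L ^ e₁ * sp T < |v|}, rn n T L v * |cnt T (t + v) (Icc 0 x) - x| ≤ 1)
    (hnz : ∀ y ∈ Icc 0 (L ^ e₁), |cnt T t (Icc 0 y) - y| ≤ e * Real.log L ∧ |cnt T t (Icc (-y) 0) - y| ≤ e * Real.log L)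
    (hσ : σ = 1 ∨ σ = -1) (hx : x ∈ Icc (L ^ e₁) (L - L ^ e₁)) (hV : 3 ≤ V)
    (hY : V ≤ σ * (Yn n T L t x - Yn n T L t 0)) :
    ∃ x' ∈ Icc (x - L ^ e₁) (x + L ^ e₁), V - 3 - 2 * e * Real.log L ≤ σ * (cnt T t (Icc 0 x') - x') := by
  have hpi := Real.pi_pos
  have hs : 0 < sp T := by
    have h1 : 0 < Real.log T := Real.log_pos (by linarith)
    unfold sp
    positivity
  have hL0 : 0 < L := by linarith
  have hlL : 0 ≤ Real.log L := Real.log_nonneg hL
  obtain ⟨δ, hδd⟩ : ∃ δ, δ = e * Real.log L := ⟨_, rfl⟩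
  have hδ : 0 ≤ δ := by rw [hδd]; positivity
  rw [← hδd] at hnz
  obtain ⟨Y, hYd⟩ : ∃ Y, Y = L ^ e₁ := ⟨_, rfl⟩
  rw [← hYd] at hnz hx ⊢
  simp only [← hYd] at htl
  have hY0 : 0 ≤ Y := by rw [hYd]; positivity
  have hx0 : 0 ≤ x := hY0.trans hx.1
  have hxL : x ≤ L := by linarith [hx.2]
  have hdd : dd n ≤ 1 := by
    unfold dd
    have h1 : (4 : ℝ) ≤ n := by exact_mod_cast hn
    rw [div_le_one (by linarith)]
    linarith
  have hR : 0 < RR n L := by unfold RR; positivity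
  have hRL : RR n L ≤ L := by
    unfold RR
    calc L ^ dd n ≤ L ^ (1 : ℝ) := Real.rpow_le_rpow_of_exponent_le hL hdd
      _ = L := Real.rpow_one L
  obtain ⟨r0', _, ri', r1', _⟩ := Helper28.TL.H82.rho_facts (k := dd n / 100) hR hRL hT
  obtain ⟨ci', ce⟩ := Helper28.TL.H82.conv_one (k := dd n / 100) hR hRL hT t hx0
  have r0 : ∀ v, 0 ≤ rn n T L v := r0'
  have ri : Integrable (rn n T L) := ri'
  have r1 : ∫ v, rn n T L v = 1 := r1'
  have ci : Integrable (fun v => rn n T L v * cnt T (t + v) (Icc 0 x)) := ci'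
  have hN0 : Pool.Agent.Helper62.OP.Nt (dd n / 100) T (RR n L) L t 0 = 0 := by
    unfold Pool.Agent.Helper62.OP.Nt
    simp
  have hce : ∫ v, rn n T L v * cnt T (t + v) (Icc 0 x) = Nn n T L t x := by
    have h1 : Nn n T L t x = Pool.Agent.Helper62.OP.Nt (dd n / 100) T (RR n L) L t x -
        Pool.Agent.Helper62.OP.Nt (dd n / 100) T (RR n L) L t 0 := by rw [hN0, sub_zero]; rfl
    rw [h1, ← ce]
    rfl
  have hgi : Integrable (fun v => rn n T L v * (cnt T (t + v) (Icc 0 x) - x)) := by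
    have h1 : (fun v => rn n T L v * (cnt T (t + v) (Icc 0 x) - x)) =
        fun v => rn n T L v * cnt T (t + v) (Icc 0 x) - rn n T L v * x := by funext v; ring
    rw [h1]
    exact ci.sub (ri.mul_const x)
  have hge : ∫ v, rn n T L v * (cnt T (t + v) (Icc 0 x) - x) = Nn n T L t x - x := by
    have h1 : (fun v => rn n T L v * (cnt T (t + v) (Icc 0 x) - x)) =
        fun v => rn n T L v * cnt T (t + v) (Icc 0 x) - rn n T L v * x := by funext v; ring
    rw [h1, integral_sub ci (ri.mul_const x), hce, integral_mul_const, r1, one_mul]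
  have hSm : MeasurableSet {v : ℝ | Y * sp T < |v|} := measurableSet_lt measurable_const measurable_id.abs
  have hsplit := integral_add_compl hSm hgi
  have hfar : |∫ v in {v : ℝ | Y * sp T < |v|}, rn n T L v * (cnt T (t + v) (Icc 0 x) - x)| ≤ 1 := by
    refine le_trans (abs_integral_le_integral_abs) (le_trans (le_of_eq ?_) (htl x ⟨hx0, hxL⟩))
    refine integral_congr_ae (Filter.Eventually.of_forall fun v => ?_)
    beta_reduce
    rw [abs_mul, abs_of_nonneg (r0 v)]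
  by_contra hcon
  push Not at hcon
  have hpt : ∀ v ∈ {v : ℝ | Y * sp T < |v|}ᶜ, σ * (rn n T L v * (cnt T (t + v) (Icc 0 x) - x)) ≤ rn n T L v * (V - 3) := by
    intro v hv
    have hv1 : |v| ≤ Y * sp T := not_lt.1 hv
    have ha : |v / sp T| ≤ Y := by
      rw [abs_div, abs_of_pos hs, div_le_iff₀ hs]
      exact hv1
    obtain ⟨ha1, ha2⟩ := abs_le.1 ha
    have hb0 : 0 ≤ x + v / sp T := by linarith [hx.1]
    have h1 := cnt_window (T := T) (t := t) hs hnz hY0 ha hb0 (by linarith : v / sp T ≤ x + v / sp T)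
    have h2 := hcon (x + v / sp T) ⟨by linarith, by linarith⟩
    rw [cnt_shift hs, zero_add]
    rw [show x + v / sp T - v / sp T = x by ring] at h1
    have h3 : σ * (cnt T t (Icc (v / sp T) (x + v / sp T)) - x) ≤ V - 3 := by
      rw [show 2 * e * Real.log L = 2 * δ by rw [hδd]; ring] at h2
      rcases hσ with rfl | rfl
      · linarith [h1.1]
      · linarith [h1.2]
    calc σ * (rn n T L v * (cnt T t (Icc (v / sp T) (x + v / sp T)) - x))
        = rn n T L v * (σ * (cnt T t (Icc (v / sp T) (x + v / sp T)) - x)) := by ring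
      _ ≤ rn n T L v * (V - 3) := mul_le_mul_of_nonneg_left h3 (r0 v)
  have hnear : σ * ∫ v in {v : ℝ | Y * sp T < |v|}ᶜ, rn n T L v * (cnt T (t + v) (Icc 0 x) - x) ≤ V - 3 := by
    rw [← integral_const_mul]
    calc ∫ v in {v : ℝ | Y * sp T < |v|}ᶜ, σ * (rn n T L v * (cnt T (t + v) (Icc 0 x) - x))
        ≤ ∫ v in {v : ℝ | Y * sp T < |v|}ᶜ, rn n T L v * (V - 3) :=
          setIntegral_mono_on (hgi.const_mul σ).integrableOn (ri.mul_const _).integrableOn hSm.compl hpt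
      _ = (∫ v in {v : ℝ | Y * sp T < |v|}ᶜ, rn n T L v) * (V - 3) := integral_mul_const _ _
      _ ≤ 1 * (V - 3) := by
          apply mul_le_mul_of_nonneg_right _ (by linarith)
          rw [← r1]
          exact setIntegral_le_integral ri (Filter.Eventually.of_forall r0)
      _ = V - 3 := one_mul _
  have hsm1 := abs_le.1 (hsm x (abs_le.2 ⟨by linarith, hxL⟩))
  rw [hge] at hsplit
  have hfar1 := abs_le.1 hfar
  rcases hσ with rfl | rfl
  · linarith [hsm1.1, hsm1.2, hfar1.1, hfar1.2]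
  · linarith [hsm1.1, hsm1.2, hfar1.1, hfar1.2]

end Pool.Agent.Helper44.OR
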