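import Pool.Agent.Helper44.OR.Sh
import Pool.Agent.Helper93.OR.Fin0

/-!
# OR, block SH1: a high point of the field gives a high point of the count within `L ^ e₁`
-/

set_option autoImplicit false
open MeasureTheory Set Filter Topology
open Pool.Agent.Helper57.NS (cnt)
open Pool.Agent.Helper93.OR

namespace Pool.Agent.Helper44.OR

/-- SH1: a high point of the field gives a high point of the count within `L^e₁` -/
theorem sh_point {n : ℕ} (hn : 4 ≤ n) {T L e e₁ t σ V x : ℝ} (hT : 3 ≤ T) (hL : 1 ≤ L) (he : 0 < e) (_he₁ : 0 < e₁)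
    (h : Nice n T L e e₁ t) (hσ : σ = 1 ∨ σ = -1) (hx : x ∈ Icc (L ^ e₁) (L - L ^ e₁)) (hV : 3 ≤ V)
    (hY : V ≤ σ * (Yn n T L t x - Yn n T L t 0)) :
    ∃ x' ∈ Icc (x - L ^ e₁) (x + L ^ e₁), V - 3 - 2 * e * Real.log L ≤ σ * (cnt T t (Icc 0 x') - x') :=
  sh_point_raw hn hT hL he h.sm h.tl h.nz hσ hx hV hY

end Pool.Agent.Helper44.OR
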